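import Pool.Agent.Q211.FI.Mix

/-!
# Resampling one coordinate of an i.i.d. family
-/

set_option autoImplicit false

open MeasureTheory ProbabilityTheory Filter Topology Set

namespace Pool.Agent.Q211.TM

open Pool.Agent.Q211.FI

variable {V E : Type*} [DecidableEq V] [MeasurableSpace E] (μ0 : Measure E)
  [IsProbabilityMeasure μ0]

/-- Resampling the coordinate `w`. -/
def upd (w : V) (q : (V → E) × E) : V → E := Function.update q.1 w q.2

theorem measurable_upd (w : V) : Measurable (upd (E := E) w) := by
  refine measurable_pi_lambda _ fun v => ?_
  unfold upd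
  by_cases h : v = w
  · subst h
    simp only [Function.update_self]
    exact measurable_snd
  · simp only [Function.update_of_ne h]
    exact (measurable_pi_apply v).comp measurable_fst

omit [DecidableEq V] in
theorem measurableSet_pi' (s : Finset V) (t : V → Set E) (ht : ∀ i, MeasurableSet (t i)) :
    MeasurableSet (Set.pi (s : Set V) t) :=
  MeasurableSet.pi (Finset.countable_toSet _) fun i _ => ht i

theorem upd_law (w : V) : ((prodM V μ0).prod μ0).map (upd w) = prodM V μ0 := by
  unfold prodM
  refine Measure.eq_infinitePi (fun _ : V => μ0) fun s t ht => ?_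
  rw [Measure.map_apply (measurable_upd w) (measurableSet_pi' s t ht)]
  by_cases hw : w ∈ s
  · have h1 : upd w ⁻¹' Set.pi (s : Set V) t =
        (Set.pi ((s.erase w : Finset V) : Set V) t) ×ˢ (t w) := by
      ext q
      simp only [mem_preimage, Set.mem_pi, Finset.mem_coe, mem_prod, Finset.mem_erase, upd]
      constructor
      · intro h
        refine ⟨fun i hi => ?_, ?_⟩
        · have := h i hi.2
          rwa [Function.update_of_ne hi.1] at this
        · simpa using h w hw
      · rintro ⟨h1, h2⟩ i hi
        by_cases hiw : i = w
        · subst hiw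
          simpa using h2
        · rw [Function.update_of_ne hiw]
          exact h1 i ⟨hiw, hi⟩
    rw [h1, Measure.prod_prod, Measure.infinitePi_pi _ (fun i _ => ht i), mul_comm]
    exact Finset.mul_prod_erase s (fun i => μ0 (t i)) hw
  · have h1 : upd w ⁻¹' Set.pi (s : Set V) t = (Set.pi (s : Set V) t) ×ˢ (univ : Set E) := by
      ext q
      simp only [mem_preimage, Set.mem_pi, Finset.mem_coe, mem_prod, upd, mem_univ, and_true]
      refine forall₂_congr fun i hi => ?_
      have hiw : i ≠ w := fun h => hw (h ▸ hi)
      rw [Function.update_of_ne hiw]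
    rw [h1, Measure.prod_prod, Measure.infinitePi_pi _ (fun i _ => ht i), measure_univ, mul_one]

theorem ae_upd (w : V) {p : (V → E) → Prop} (h : ∀ᵐ ω ∂(prodM V μ0), p ω) :
    ∀ᵐ q ∂((prodM V μ0).prod μ0), p (upd w q) := by
  have h2 := h
  rw [← upd_law μ0 w] at h2
  exact ae_of_ae_map (measurable_upd w).aemeasurable h2

/-- An event which is not affected by resampling single coordinates is trivial. -/
theorem zero_one_resample (A : Set (V → E)) (hA : MeasurableSet A)
    (h : ∀ w, ∀ᵐ q ∂((prodM V μ0).prod μ0), q.1 ∈ A ↔ upd w q ∈ A) :
    prodM V μ0 A = 0 ∨ prodM V μ0 Aᶜ = 0 := by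
  set P := prodM V μ0 with hP
  have key : ∀ (s : Finset V) (t : V → Set E), (∀ i, MeasurableSet (t i)) →
      P (A ∩ Set.pi (s : Set V) t) = P A * ∏ i ∈ s, μ0 (t i) := by
    intro s t ht
    induction s using Finset.induction with
    | empty => simp
    | insert w s hw ih =>
      have hm := hA.inter (measurableSet_pi' (insert w s) t ht)
      calc P (A ∩ Set.pi ((insert w s : Finset V) : Set V) t)
          = (P.prod μ0) (upd w ⁻¹' (A ∩ Set.pi ((insert w s : Finset V) : Set V) t)) := by
            conv_lhs => rw [hP, ← upd_law μ0 w]
            rw [Measure.map_apply (measurable_upd w) hm]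
        _ = (P.prod μ0) ((A ∩ Set.pi (s : Set V) t) ×ˢ (t w)) := by
            refine measure_congr ?_
            filter_upwards [h w] with q hq
            apply propext
            show upd w q ∈ A ∩ Set.pi ((insert w s : Finset V) : Set V) t ↔
              q ∈ (A ∩ Set.pi (s : Set V) t) ×ˢ (t w)
            rw [mem_inter_iff, ← hq, mem_prod, mem_inter_iff, and_assoc]
            refine and_congr_right fun _ => ?_
            simp only [Set.mem_pi, Finset.mem_coe, Finset.mem_insert, upd]
            constructor
            · intro h1
              refine ⟨fun i hi => ?_, by simpa using h1 w (Or.inl rfl)⟩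
              have hiw : i ≠ w := fun h => hw (h ▸ hi)
              have := h1 i (Or.inr hi)
              rwa [Function.update_of_ne hiw] at this
            · rintro ⟨h1, h2⟩ i hi
              by_cases hiw : i = w
              · subst hiw
                simpa using h2
              · rw [Function.update_of_ne hiw]
                exact h1 i (hi.resolve_left hiw)
        _ = P (A ∩ Set.pi (s : Set V) t) * μ0 (t w) := Measure.prod_prod _ _
        _ = _ := by rw [ih, Finset.prod_insert hw, mul_assoc, mul_comm (μ0 (t w))]
  by_cases h0 : P A = 0
  · exact Or.inl h0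
  · right
    have h1 : (P A)⁻¹ • P.restrict A = P := by
      refine Measure.eq_infinitePi (fun _ : V => μ0) fun s t ht => ?_
      rw [Measure.smul_apply, Measure.restrict_apply (measurableSet_pi' s t ht), inter_comm,
        key s t ht, smul_eq_mul, ← mul_assoc, ENNReal.inv_mul_cancel h0 (measure_ne_top _ _),
        one_mul]
    have h2 : ((P A)⁻¹ • P.restrict A) Aᶜ = 0 := by
      rw [Measure.smul_apply, Measure.restrict_apply hA.compl]
      simp
    rwa [h1] at h2

end Pool.Agent.Q211.TM
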