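import Pool.Agent.Q211.FI.Defs

/-!
# The 3-regular tree
-/

set_option autoImplicit false

open MeasureTheory ProbabilityTheory Filter Topology Set

namespace Pool.Agent.Q211.TM

/-- Right multiplication by the letter `i` on words. -/
def R (i : Fin 3) : List (Fin 3) → List (Fin 3)
  | [] => [i]
  | [a] => if a = i then [] else [a, i]
  | a :: b :: t => a :: R i (b :: t)

/-- Left multiplication by the letter `j` on words. -/
def L (j : Fin 3) : List (Fin 3) → List (Fin 3)
  | [] => [j]
  | a :: t => if a = j then t else j :: a :: t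

/-- Reduced words: no two consecutive letters are equal. -/
def Red (w : List (Fin 3)) : Prop := w.IsChain (· ≠ ·)

theorem R_cons (i a : Fin 3) {t : List (Fin 3)} (ht : t ≠ []) : R i (a :: t) = a :: R i t := by
  cases t with
  | nil => exact absurd rfl ht
  | cons b t => rfl

theorem R_L (i j : Fin 3) (w : List (Fin 3)) : R i (L j w) = L j (R i w) := by
  cases w with
  | nil =>
    simp only [L, R]
    by_cases h : i = j
    · simp [h]
    · simp [h, Ne.symm h]
  | cons a t =>
    cases t with
    | nil =>
      simp only [L, R]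
      by_cases h1 : a = j <;> by_cases h2 : a = i <;> simp_all [R]
    | cons b t =>
      rw [R_cons i a (List.cons_ne_nil b t)]
      simp only [L]
      by_cases h1 : a = j
      · simp [h1]
      · simp only [h1, if_false]
        rw [R_cons i j (List.cons_ne_nil a _), R_cons i a (List.cons_ne_nil b _)]

theorem R_red (i : Fin 3) {w : List (Fin 3)} (h : Red w) : Red (R i w) := by
  unfold Red at *
  induction w with
  | nil => simp [R]
  | cons a t ih =>
    cases t with
    | nil =>
      simp only [R]
      split_ifs with h1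
      · simp
      · simpa using h1
    | cons b t =>
      rw [R_cons i a (List.cons_ne_nil b t)]
      rw [List.isChain_cons_cons] at h
      have ih' := ih h.2
      cases t with
      | nil =>
        simp only [R] at ih' ⊢
        split_ifs with h1
        · simp
        · simp only [h1, if_false] at ih'
          rw [List.isChain_cons_cons]
          exact ⟨h.1, ih'⟩
      | cons c t =>
        rw [R_cons i b (List.cons_ne_nil c t)] at ih' ⊢
        rw [List.isChain_cons_cons]
        exact ⟨h.1, ih'⟩

theorem L_red (j : Fin 3) {w : List (Fin 3)} (h : Red w) : Red (L j w) := by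
  unfold Red at *
  cases w with
  | nil => simp [L]
  | cons a t =>
    simp only [L]
    split_ifs with h1
    · exact h.of_cons
    · rw [List.isChain_cons_cons]
      exact ⟨Ne.symm h1, h⟩

theorem R_R (i : Fin 3) {w : List (Fin 3)} (h : Red w) : R i (R i w) = w := by
  unfold Red at h
  induction w with
  | nil => simp [R]
  | cons a t ih =>
    cases t with
    | nil =>
      simp only [R]
      split_ifs with h1
      · simp [R, h1]
      · simp [R]
    | cons b t =>
      rw [List.isChain_cons_cons] at h
      have ih' := ih h.2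
      rw [R_cons i a (List.cons_ne_nil b t)]
      by_cases hs : R i (b :: t) = []
      · rw [hs] at ih' ⊢
        simp only [R] at ih' ⊢
        have hb : b = i ∧ t = [] := by
          simpa [eq_comm] using ih'
        obtain ⟨rfl, rfl⟩ := hb
        simp [h.1]
      · rw [R_cons i a hs, ih']

theorem L_L (j : Fin 3) {w : List (Fin 3)} (h : Red w) : L j (L j w) = w := by
  unfold Red at h
  cases w with
  | nil => simp [L]
  | cons a t =>
    simp only [L]
    split_ifs with h1
    · subst h1
      cases t with
      | nil => rfl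
      | cons b t =>
        rw [List.isChain_cons_cons] at h
        simp [Ne.symm h.1]
    · simp

/-- The change of the length. -/
theorem R_length (i : Fin 3) (w : List (Fin 3)) :
    ((R i w).length = w.length + 1) ∨
      ((R i w).length + 1 = w.length ∧ ∃ t, w = t ++ [i] ∧ R i w = t) := by
  induction w with
  | nil => left; simp [R]
  | cons a t ih =>
    cases t with
    | nil =>
      simp only [R]
      split_ifs with h1
      · right
        refine ⟨by simp, [], by simp [h1], rfl⟩
      · left
        simp
    | cons b t =>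
      rw [R_cons i a (List.cons_ne_nil b t)]
      rcases ih with h | ⟨h, s, hs, hs2⟩
      · left
        simp only [List.length_cons] at h ⊢
        omega
      · right
        refine ⟨?_, a :: s, ?_, ?_⟩
        · simp only [List.length_cons] at h ⊢
          omega
        · rw [hs]
          rfl
        · rw [hs2]

/-- The vertices of the tree. -/
abbrev V := {w : List (Fin 3) // Red w}

/-- Right multiplication on the vertices. -/
def r (i : Fin 3) (v : V) : V := ⟨R i v.1, R_red i v.2⟩

/-- Left multiplication on the vertices. -/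
def l (j : Fin 3) (v : V) : V := ⟨L j v.1, L_red j v.2⟩

theorem r_r (i : Fin 3) (v : V) : r i (r i v) = v := Subtype.ext (R_R i v.2)

theorem l_l (j : Fin 3) (v : V) : l j (l j v) = v := Subtype.ext (L_L j v.2)

theorem r_l (i j : Fin 3) (v : V) : r i (l j v) = l j (r i v) := Subtype.ext (R_L i j v.1)

/-- The level. -/
def len (v : V) : ℕ := v.1.length

theorem len_r (i : Fin 3) (v : V) : len (r i v) = len v + 1 ∨
    (len (r i v) + 1 = len v ∧ v.1 = (r i v).1 ++ [i]) := by
  rcases R_length i v.1 with h | ⟨h, t, h1, h2⟩
  · exact Or.inl h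
  · refine Or.inr ⟨h, ?_⟩
    show v.1 = R i v.1 ++ [i]
    rw [h2]
    exact h1

/-- The 3-regular tree. -/
def T3 : SimpleGraph V where
  Adj u v := ∃ i, v = r i u
  symm := ⟨by
    rintro u v ⟨i, rfl⟩
    exact ⟨i, (r_r i u).symm⟩⟩
  loopless := ⟨by
    rintro v ⟨i, hi⟩
    have h := len_r i v
    rw [← hi] at h
    omega⟩

/-- The root. -/
def root : V := ⟨[], by simp [Red]⟩

theorem adj_iff (u v : V) : T3.Adj u v ↔ ∃ i, v = r i u := Iff.rfl

theorem r_inj (v : V) : Function.Injective fun i => r i v := by
  intro i j h
  simp only at h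
  rcases len_r i v with h1 | ⟨h1, h2⟩ <;> rcases len_r j v with h3 | ⟨h3, h4⟩
  · have h5 := r_r i v
    have h6 := r_r j v
    -- both are extensions
    have h7 := len_r i (r i v)
    rw [h5] at h7
    have h8 := len_r j (r j v)
    rw [h6] at h8
    have e1 : (r i v).1 = v.1 ++ [i] := by
      rcases h7 with h7 | h7
      · omega
      · exact h7.2
    have e2 : (r j v).1 = v.1 ++ [j] := by
      rcases h8 with h8 | h8
      · omega
      · exact h8.2
    rw [h] at e1
    rw [e1] at e2
    simpa using e2
  · rw [h] at h1; omega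
  · rw [h] at h1; omega
  · rw [h] at h2
    rw [h2] at h4
    simpa using h4

theorem regular (v : V) : (T3.neighborSet v).ncard = 3 := by
  have h : T3.neighborSet v = (fun i => r i v) '' Set.univ := by
    ext u
    rw [SimpleGraph.mem_neighborSet, adj_iff]
    simp [eq_comm]
  rw [h, Set.ncard_image_of_injective _ (r_inj v), Set.ncard_univ]
  simp

/-- A vertex has at most one neighbour on a lower level. -/
theorem parent_unique {v u w : V} (hu : T3.Adj v u) (hw : T3.Adj v w) (h1 : len u ≤ len v)
    (h2 : len w ≤ len v) : u = w := by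
  obtain ⟨i, rfl⟩ := hu
  obtain ⟨j, rfl⟩ := hw
  have h3 := len_r i v
  have h4 := len_r j v
  have e1 : v.1 = (r i v).1 ++ [i] := by
    rcases h3 with h3 | h3
    · omega
    · exact h3.2
  have e2 : v.1 = (r j v).1 ++ [j] := by
    rcases h4 with h4 | h4
    · omega
    · exact h4.2
  rw [e1] at e2
  have := List.append_inj' e2 rfl
  exact Subtype.ext this.1

theorem reach (v : V) : ∃ p : T3.Walk root v, p.length = len v := by
  obtain ⟨w, hw⟩ := v
  induction w using List.reverseRecOn with
  | nil => exact ⟨SimpleGraph.Walk.nil, rfl⟩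
  | append_singleton t i ih =>
    have ht : Red t := by
      unfold Red at hw ⊢
      exact hw.left_of_append
    obtain ⟨p, hp⟩ := ih ht
    have hadj : T3.Adj ⟨t, ht⟩ ⟨t ++ [i], hw⟩ := by
      refine (T3.symm.symm) _ _ ⟨i, ?_⟩
      apply Subtype.ext
      show t = R i (t ++ [i])
      rcases R_length i (t ++ [i]) with h | ⟨_, s, hs, hs2⟩
      · exfalso
        have h1 : R i (R i (t ++ [i])) = t ++ [i] := R_R i hw
        rcases R_length i (R i (t ++ [i])) with h2 | ⟨h2, s, hs, hs2⟩
        · rw [h1] at h2
          omega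
        · rw [h1] at hs2
          rw [← hs2] at hs
          have h3 := R_red i hw
          rw [hs] at h3
          unfold Red at h3
          rw [List.append_assoc] at h3
          have h4 := h3.right_of_append
          simp at h4
      · rw [hs2]
        exact (List.append_inj' hs rfl).1
    refine ⟨p.concat hadj, ?_⟩
    rw [SimpleGraph.Walk.length_concat, hp]
    simp [len]

theorem len_walk {u v : V} (p : T3.Walk u v) : len v ≤ len u + p.length := by
  induction p with
  | nil => simp
  | @cons a b c h p ih =>
    obtain ⟨i, hi⟩ := (adj_iff a b).1 h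
    rw [SimpleGraph.Walk.length_cons]
    have hb : len b ≤ len a + 1 := by
      rw [hi]
      rcases len_r i a with h1 | ⟨h1, _⟩ <;> omega
    omega

theorem connected : T3.Connected := by
  have : Nonempty V := ⟨root⟩
  refine ⟨fun u v => ?_⟩
  obtain ⟨p, _⟩ := reach u
  obtain ⟨q, _⟩ := reach v
  exact ⟨p.reverse.append q⟩

theorem dist_root (v : V) : T3.dist root v = len v := by
  obtain ⟨p, hp⟩ := reach v
  refine le_antisymm ((SimpleGraph.dist_le p).trans hp.le) ?_
  obtain ⟨q, hq⟩ := connected.exists_walk_length_eq_dist root v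
  have := len_walk q
  rw [hq] at this
  simpa [len, root] using this

theorem isTree : T3.IsTree := by
  refine ⟨connected, ?_⟩
  intro v c hc
  classical
  obtain ⟨u, hu, hmax⟩ := (c.support.toFinset).exists_max_image len
    ⟨v, by simp⟩
  have hu' : u ∈ c.support := List.mem_toFinset.1 hu
  have hcyc : (c.rotate u hu').IsCycle := hc.rotate hu'
  have hmem : ∀ w ∈ (c.rotate u hu').support, len w ≤ len u := by
    intro w hw
    rw [SimpleGraph.Walk.mem_support_rotate_iff] at hw
    exact hmax w (List.mem_toFinset.2 hw)
  have hne := hcyc.snd_ne_penultimate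
  apply hne
  refine parent_unique ?_ ?_ (hmem _ ?_) (hmem _ ?_)
  · exact (c.rotate u hu').adj_snd hcyc.not_nil
  · exact ((c.rotate u hu').adj_penultimate hcyc.not_nil).symm
  · exact SimpleGraph.Walk.getVert_mem_support _ _
  · exact SimpleGraph.Walk.getVert_mem_support _ _

/-- Left multiplication as an automorphism. -/
def lG (j : Fin 3) : T3 ≃g T3 where
  toFun := l j
  invFun := l j
  left_inv := l_l j
  right_inv := l_l j
  map_rel_iff' := by
    intro u v
    constructor
    · rintro ⟨i, hi⟩
      refine ⟨i, ?_⟩
      have h2 : l j v = r i (l j u) := hi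
      rw [r_l] at h2
      have h3 := congrArg (l j) h2
      rwa [l_l, l_l] at h3
    · rintro ⟨i, rfl⟩
      exact ⟨i, (r_l i j u).symm⟩

theorem lG_apply (j : Fin 3) (v : V) : lG j v = l j v := rfl

theorem transitive (v : V) : ∃ γ : T3 ≃g T3, γ root = v ∧ len (γ.symm root) = len v := by
  obtain ⟨w, hw⟩ := v
  induction w with
  | nil => exact ⟨RelIso.refl _, rfl, rfl⟩
  | cons j t ih =>
    have ht : Red t := by
      unfold Red at hw ⊢
      exact hw.of_cons
    obtain ⟨γ, h1, h2⟩ := ih ht
    have h3 : γ.trans (lG j) root = ⟨j :: t, hw⟩ := by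
      show l j (γ root) = ⟨j :: t, hw⟩
      rw [h1]
      apply Subtype.ext
      show L j t = j :: t
      cases t with
      | nil => rfl
      | cons b t =>
        unfold Red at hw
        rw [List.isChain_cons_cons] at hw
        simp [L, Ne.symm hw.1]
    refine ⟨γ.trans (lG j), h3, ?_⟩
    have h4 : ∀ (δ : T3 ≃g T3) (u v : V), T3.dist (δ u) (δ v) ≤ T3.dist u v := by
      intro δ u v
      obtain ⟨p, hp⟩ := connected.exists_walk_length_eq_dist u v
      rw [← hp]
      have := SimpleGraph.dist_le (p.map δ.toHom)
      rwa [SimpleGraph.Walk.length_map] at this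
    have h5 : ∀ (δ : T3 ≃g T3) (u v : V), T3.dist (δ u) (δ v) = T3.dist u v := by
      intro δ u v
      refine le_antisymm (h4 δ u v) ?_
      have := h4 δ.symm (δ u) (δ v)
      simpa using this
    set δ := γ.trans (lG j) with hδ
    have h6 := h5 δ (δ.symm root) root
    rw [RelIso.apply_symm_apply, h3, dist_root, SimpleGraph.dist_comm, dist_root] at h6
    exact h6.symm

/-- Letter permutations as automorphisms. -/
theorem R_map (σ : Equiv.Perm (Fin 3)) (i : Fin 3) (w : List (Fin 3)) :
    (R i w).map σ = R (σ i) (w.map σ) := by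
  induction w with
  | nil => rfl
  | cons a t ih =>
    cases t with
    | nil =>
      simp only [R, List.map_cons, List.map_nil, σ.injective.eq_iff]
      split_ifs <;> simp
    | cons b t =>
      rw [R_cons i a (List.cons_ne_nil b t)]
      show σ a :: (R i (b :: t)).map σ = R (σ i) (σ a :: (b :: t).map σ)
      rw [ih, R_cons (σ i) (σ a) (by simp)]

theorem map_red (σ : Equiv.Perm (Fin 3)) {w : List (Fin 3)} (h : Red w) : Red (w.map σ) := by
  unfold Red at *
  rw [List.isChain_map]
  exact h.imp fun a b hab => fun h2 => hab (σ.injective h2)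

/-- The action of a letter permutation. -/
def pm (σ : Equiv.Perm (Fin 3)) (v : V) : V := ⟨v.1.map σ, map_red σ v.2⟩

theorem pm_r (σ : Equiv.Perm (Fin 3)) (i : Fin 3) (v : V) : pm σ (r i v) = r (σ i) (pm σ v) :=
  Subtype.ext (R_map σ i v.1)

theorem pm_pm (σ : Equiv.Perm (Fin 3)) (v : V) : pm σ⁻¹ (pm σ v) = v := by
  apply Subtype.ext
  show (v.1.map σ).map (σ⁻¹ : Equiv.Perm (Fin 3)) = v.1
  rw [List.map_map]
  have : ((σ⁻¹ : Equiv.Perm (Fin 3)) : Fin 3 → Fin 3) ∘ σ = id := by
    funext x
    simp
  rw [this, List.map_id]

/-- Letter permutations as automorphisms. -/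
def pmG (σ : Equiv.Perm (Fin 3)) : T3 ≃g T3 where
  toFun := pm σ
  invFun := pm σ⁻¹
  left_inv := pm_pm σ
  right_inv v := by
    have := pm_pm σ⁻¹ v
    rwa [inv_inv] at this
  map_rel_iff' := by
    intro u v
    constructor
    · rintro ⟨i, hi⟩
      refine ⟨σ⁻¹ i, ?_⟩
      have h2 : pm σ v = r i (pm σ u) := hi
      have h3 := congrArg (pm σ⁻¹) h2
      rw [pm_r, pm_pm, pm_pm] at h3
      exact h3
    · rintro ⟨i, rfl⟩
      exact ⟨σ i, pm_r σ i u⟩

theorem pmG_symm_root (σ : Equiv.Perm (Fin 3)) : (pmG σ).symm root = root := rfl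

theorem pmG_symm_nb (σ : Equiv.Perm (Fin 3)) (i : Fin 3) :
    (pmG σ).symm (r i root) = r (σ⁻¹ i) root := pm_r σ⁻¹ i root

/-- If two perfect matchings differ at only finitely many vertices then they are equal. -/
theorem matching_diff {m m' : V → V → Bool} (h : Pool.Agent.Q211.FI.IsPerfectMatching T3 m)
    (h' : Pool.Agent.Q211.FI.IsPerfectMatching T3 m')
    (hfin : {v | ∃ u, m v u ≠ m' v u}.Finite) : m = m' := by
  by_contra hne
  have hD : {v | ∃ u, m v u ≠ m' v u}.Nonempty := by
    by_contra hno
    apply hne
    funext v u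
    by_contra h1
    exact hno ⟨v, u, h1⟩
  obtain ⟨v, hv, hmax⟩ := Set.exists_max_image _ len hfin hD
  obtain ⟨p, hp, hp2⟩ := h.2.2 v
  obtain ⟨q, hq, hq2⟩ := h'.2.2 v
  have hpq : p ≠ q := by
    rintro rfl
    obtain ⟨u, hu⟩ := hv
    apply hu
    by_cases hup : u = p
    · rw [hup, hp, hq]
    · have e1 : m v u = false := by
        by_contra h1
        exact hup (hp2 u (by simpa using h1))
      have e2 : m' v u = false := by
        by_contra h1
        exact hup (hq2 u (by simpa using h1))
      rw [e1, e2]
  have hpD : p ∈ {v | ∃ u, m v u ≠ m' v u} := by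
    refine ⟨v, ?_⟩
    rw [h.1 p v, h'.1 p v, hp]
    intro h1
    exact hpq (hq2 p h1.symm)
  have hqD : q ∈ {v | ∃ u, m v u ≠ m' v u} := by
    refine ⟨v, ?_⟩
    rw [h.1 q v, h'.1 q v, hq]
    intro h1
    exact hpq (hp2 q h1).symm
  exact hpq (parent_unique (h.2.1 v p hp) (h'.2.1 v q hq) (hmax p hpD) (hmax q hqD))

end Pool.Agent.Q211.TM
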